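import Pool.Agent.Lib.MP_5cdc53_co.VM.Assemble

set_option autoImplicit false

namespace Pool.Agent.Results.MP_5cdc53_co.BundleObstruction

open Pool.Agent.Lib.MP_5cdc53_co

/-- (1) If `L ∪ {k}` has five consecutive elements proportional to `0, 1, 2, f, v` (after
subtracting the first) and no Steiner system `S(3, f, v)` has the bundle property, then
`m(n, k, L) = o(n ^ |L|)`.  (2) No `S(3, q + 2, q² + q + 2)` with `q ≥ 3` has the bundle
property.  (3) The parameters of the Steiner systems `S(3,6,22)`, `S(4,7,23)`, `S(5,8,24)`.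
(4) The growth property of Q1 for the parameters of one-point extensions of projective planes of
order `q` holds if and only if `q = 2`. -/
theorem result :
    (∀ (f v k : ℕ) (L : Finset ℕ), (∀ l ∈ L, l < k) → Type5 f v k L → ¬ HasBundle v f →
      Filter.Tendsto (fun n : ℕ => (m n k L : ℝ) / (n : ℝ) ^ L.card) Filter.atTop (nhds 0)) ∧
    (∀ q : ℕ, 3 ≤ q → ¬ HasBundle (q ^ 2 + q + 2) (q + 2)) ∧
    (Filter.Tendsto (fun n : ℕ => (m n 22 {0, 1, 2, 6} : ℝ) / (n : ℝ) ^ 4)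
        Filter.atTop (nhds 0) ∧
      Filter.Tendsto (fun n : ℕ => (m n 23 {0, 1, 2, 3, 7} : ℝ) / (n : ℝ) ^ 5)
        Filter.atTop (nhds 0) ∧
      Filter.Tendsto (fun n : ℕ => (m n 24 {0, 1, 2, 3, 4, 8} : ℝ) / (n : ℝ) ^ 6)
        Filter.atTop (nhds 0)) ∧
    (∀ q : ℕ, 2 ≤ q → (FullGrowth (q ^ 2 + q + 2) {0, 1, 2, q + 2} ↔ q = 2)) :=
  ⟨VM.asm_bundle, VM.asm_noBundle, VM.asm_witt, VM.asm_iff⟩

end Pool.Agent.Results.MP_5cdc53_co.BundleObstruction
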