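import Pool.Agent.Lib.MP_5cdc53_co.Golay

set_option autoImplicit false

namespace Pool.Agent.Results.MP_5cdc53_co.Pair12

open Pool.Agent.Lib.MP_5cdc53_co

/-- The pairs `k = 12`, `L = {0, 1, 2, 3, 4, 6}` and `k = 11`, `L = {0, 1, 2, 3, 5}` have the
growth property of Q1: `m(n, 12, {0,1,2,3,4,6}) > c n ^ 6` and `m(n, 11, {0,1,2,3,5}) > c n ^ 5`
for some `c > 0` and all large `n`. -/
theorem result : FullGrowth 12 {0, 1, 2, 3, 4, 6} ∧ FullGrowth 11 {0, 1, 2, 3, 5} :=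
  ⟨full12, full11⟩

end Pool.Agent.Results.MP_5cdc53_co.Pair12
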