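import Pool.Agent.Lib.MP_5cdc53_co.Spherical

set_option autoImplicit false

namespace Pool.Agent.Results.MP_5cdc53_co.PowerFamily

open Pool.Agent.Lib.MP_5cdc53_co

/-- For every prime power `q` and `r ≥ 2` the pair `k = q ^ r + 1`, `L = {0, 1, 2, q + 1}` has the
growth property of Q1. -/
theorem result : ∀ q r : ℕ, IsPrimePow q → 2 ≤ r → FullGrowth (q ^ r + 1) {0, 1, 2, q + 1} :=
  fun q r hq hr => full_sphere q r hq hr

end Pool.Agent.Results.MP_5cdc53_co.PowerFamily
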