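import Pool.Agent.Lib.MP_5cdc53_co.PP.Assemble

set_option autoImplicit false

namespace Pool.Agent.Results.MP_5cdc53_co.PrimePowers

open Pool.Agent.Lib.MP_5cdc53_co

/-- Let `q ≥ 2`.  If `q` is not a prime power then `m(n, k, L) = o(n ^ |L|)` for every pair
`(k, L)` such that `L ∪ {k}` has four consecutive elements with the differences of
`0, 1, q + 1, q ^ 2 + q + 1` or of `0, 1, q, q ^ 2` up to a factor (`PlaneType`).  For the pairs
given by projective spaces, affine spaces and inversive planes of order `q` and their truncations,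
shifted and scaled (`Geom`), the growth property of Q1 holds if and only if `q` is a prime
power. -/
theorem result : ∀ q : ℕ, 2 ≤ q →
    (∀ (k : ℕ) (L : Finset ℕ), (∀ l ∈ L, l < k) → PlaneType q k L → ¬ IsPrimePow q →
      Filter.Tendsto (fun n : ℕ => (m n k L : ℝ) / (n : ℝ) ^ L.card) Filter.atTop (nhds 0)) ∧
    (∀ (k : ℕ) (L : Finset ℕ), Geom q k L → (FullGrowth k L ↔ IsPrimePow q)) :=
  fun q hq => PP.asm_main q hq

end Pool.Agent.Results.MP_5cdc53_co.PrimePowers
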